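import Mathlib

set_option autoImplicit false

namespace Pool.Agent.H.MP_f0391a_al
open MvPolynomial

theorem compl_basis {Q : Type} [AddCommGroup Q] [Module ℚ Q] (J H : Submodule ℚ Q) :
    ∃ (ι : Type) (x : ι → Q) (φ : ι → Q →ₗ[ℚ] ℚ), (∀ i, x i ∈ H) ∧
      H ≤ Submodule.span ℚ (Set.range x) ⊔ J ∧ (∀ i, ∀ y ∈ J, φ i y = 0) ∧
      (∀ i, φ i (x i) = 1) ∧ ∀ i j, j ≠ i → φ i (x j) = 0 := by
  classical
  obtain ⟨b, hb, hsp, hli⟩ := exists_linearIndependent ℚ (J.mkQ '' (H : Set Q))
  have hx : ∀ i : b, ∃ y ∈ H, J.mkQ y = i := fun i => hb i.2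
  choose x hxH hxq using hx
  have hφ : ∀ i : b, ∃ g : (Q ⧸ J) →ₗ[ℚ] ℚ, ∀ j : b, g j = (Finsupp.single j (1 : ℚ)) i := by
    intro i
    obtain ⟨g, hg⟩ := LinearMap.exists_extend ((Finsupp.lapply i).comp hli.repr)
    refine ⟨g, fun j => ?_⟩
    have h1 := LinearMap.congr_fun hg ⟨j, Submodule.subset_span ⟨j, rfl⟩⟩
    have h2 := hli.repr_eq_single j ⟨j, Submodule.subset_span ⟨j, rfl⟩⟩ rfl
    simp only [LinearMap.comp_apply, Submodule.subtype_apply, h2, Finsupp.lapply_apply] at h1
    exact h1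
  choose g hg using hφ
  refine ⟨b, x, fun i => (g i).comp J.mkQ, hxH, ?_, ?_, ?_, ?_⟩
  · intro y hy
    have h1 : J.mkQ y ∈ Submodule.span ℚ b := by
      rw [hsp]; exact Submodule.subset_span ⟨y, hy, rfl⟩
    have h2 : Submodule.span ℚ b ≤ (Submodule.span ℚ (Set.range x)).map J.mkQ := by
      rw [Submodule.span_le]
      intro z hz
      exact ⟨x ⟨z, hz⟩, Submodule.subset_span ⟨_, rfl⟩, hxq _⟩
    obtain ⟨z, hz, hzy⟩ := h2 h1
    have h3 : y - z ∈ J := by
      rw [← Submodule.Quotient.eq]
      exact hzy.symm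
    have h4 : y = z + (y - z) := by abel
    rw [h4]
    exact Submodule.add_mem_sup hz h3
  · intro i y hy
    have : J.mkQ y = 0 := (Submodule.Quotient.mk_eq_zero J).2 hy
    simp only [LinearMap.comp_apply, this, map_zero]
  · intro i
    simp only [LinearMap.comp_apply, hxq, hg, Finsupp.single_eq_same]
  · intro i j hij
    simp only [LinearMap.comp_apply, hxq, hg]
    exact Finsupp.single_eq_of_ne' hij

theorem pderiv_ne_zero {ι : Type} (p : MvPolynomial ι ℚ) (i : ι) (hi : i ∈ p.vars) :
    pderiv i p ≠ 0 ∧ (pderiv i p).totalDegree < p.totalDegree := by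
  classical
  obtain ⟨m, hm, him⟩ := (mem_vars_iff_mem_support i).1 hi
  have hmi : 1 ≤ m i := Nat.one_le_iff_ne_zero.2 (Finsupp.mem_support_iff.1 him)
  have hm1 : m - Finsupp.single i 1 + Finsupp.single i 1 = m :=
    tsub_add_cancel_of_le (Finsupp.single_le_iff.2 hmi)
  constructor
  · intro h
    have h1 := coeff_pderiv (i := i) p (m - Finsupp.single i 1)
    rw [h, hm1, coeff_zero] at h1
    have h2 : coeff m p ≠ 0 := mem_support_iff.1 hm
    have h3 : (((m - Finsupp.single i 1 : ι →₀ ℕ) i : ℚ) + 1) ≠ 0 := by positivity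
    exact mul_ne_zero h2 h3 h1.symm
  · have hpos : 0 < p.totalDegree := by
      have h1 := le_totalDegree hm
      have h2 : m i ≤ m.sum fun _ e => e := Finset.single_le_sum (f := fun a => m a) (fun _ _ => Nat.zero_le _) him
      omega
    rw [totalDegree, Finset.sup_lt_iff hpos]
    intro k hk
    have h1 := mem_support_iff.1 hk
    rw [coeff_pderiv] at h1
    have h2 : k + Finsupp.single i 1 ∈ p.support := mem_support_iff.2 (left_ne_zero_of_mul h1)
    have h3 := le_totalDegree h2
    rw [Finsupp.sum_add_index' (fun _ => rfl) (fun _ _ _ => rfl), Finsupp.sum_single_index rfl] at h3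
    omega

theorem leray {Q : Type} [CommRing Q] [Algebra ℚ Q] [Nontrivial Q] (H : ℕ → Submodule ℚ Q)
    (I : Q → Prop) (hIH : ∀ d, ∀ y ∈ H d, I y) (hIa : ∀ a b, I a → I b → I (a + b))
    (hIm : ∀ a b, I a → I b → I (a * b)) (h0 : ∀ y, y ∈ H 0 ↔ ∃ r : ℚ, y = algebraMap ℚ Q r)
    (hD : ∀ d, 1 ≤ d → ∀ φ : Q →ₗ[ℚ] ℚ,
      (∀ i j, 1 ≤ i → 1 ≤ j → i + j = d → ∀ a ∈ H i, ∀ b ∈ H j, φ (a * b) = 0) →
      ∃ D : Q → Q, (∀ a b, D (a + b) = D a + D b) ∧
        (∀ a b, I a → I b → D (a * b) = D a * b + a * D b) ∧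
        (∀ y ∈ H d, D y = algebraMap ℚ Q (φ y)) ∧ ∀ e < d, ∀ y ∈ H e, D y = 0) :
    ∃ (ι : Type) (x : ι → Q), (∀ i, ∃ d, x i ∈ H d) ∧ AlgebraicIndependent ℚ x ∧
      ∀ d, ∀ y ∈ H d, y ∈ Algebra.adjoin ℚ (Set.range x) := by
  classical
  let J : ℕ → Submodule ℚ Q := fun d => Submodule.span ℚ
    {z | ∃ i j, 1 ≤ i ∧ 1 ≤ j ∧ i + j = d ∧ ∃ a ∈ H i, ∃ b ∈ H j, z = a * b}
  choose ι x φ hxH hsp hJ h1 h2 using fun d => compl_basis (J (d + 1)) (H (d + 1))
  let y : (Σ d, ι d) → Q := fun k => x k.1 k.2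
  refine ⟨Σ d, ι d, y, fun k => ⟨k.1 + 1, hxH _ _⟩, ?_, ?_⟩
  · rw [algebraicIndependent_iff]
    have key : ∀ n, ∀ p : MvPolynomial (Σ d, ι d) ℚ, p.totalDegree = n → aeval y p = 0 → p = 0 := by
      intro n
      induction n using Nat.strong_induction_on with
      | _ n ih =>
        intro p hn hp
        by_cases hv : p.vars = ∅
        · have h3 : p = C (coeff 0 p) := by
            have : p.totalDegree = 0 := by
              by_contra hne
              rw [totalDegree_eq_zero_iff] at hne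
              push Not at hne
              obtain ⟨m, hm, k, hk⟩ := hne
              have : k ∈ p.vars := (mem_vars_iff_mem_support k).2 ⟨m, hm, Finsupp.mem_support_iff.2 hk⟩
              rw [hv] at this
              exact absurd this (Finset.notMem_empty _)
            exact totalDegree_eq_zero_iff_eq_C.1 this
          rw [h3, aeval_C] at hp
          rw [h3, (map_eq_zero_iff _ (algebraMap ℚ Q).injective).1 hp, C_0]
        · obtain ⟨k, hk, hmax⟩ := Finset.exists_max_image p.vars (fun k => k.1)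
            (Finset.nonempty_iff_ne_empty.2 hv)
          obtain ⟨D, hDa, hDm, hDd, hDe⟩ := hD (k.1 + 1) (by omega) (φ k.1 k.2)
            (fun i j hi hj hij a ha b hb =>
              hJ _ _ _ (Submodule.subset_span ⟨i, j, hi, hj, hij, a, ha, b, hb, rfl⟩))
          have hmem : p ∈ Algebra.adjoin ℚ ((X : _ → MvPolynomial (Σ d, ι d) ℚ) '' {l : Σ d, ι d | l.1 ≤ k.1}) := by
            rw [← supported_eq_adjoin_X, mem_supported]
            exact fun l hl => hmax l hl
          have hall : ∀ r ∈ Algebra.adjoin ℚ ((X : _ → MvPolynomial (Σ d, ι d) ℚ) '' {l : Σ d, ι d | l.1 ≤ k.1}),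
              I (aeval y r) ∧ D (aeval y r) = aeval y (pderiv k r) := by
            intro r hr
            induction hr using Algebra.adjoin_induction with
            | mem r hr =>
              obtain ⟨l, hl, rfl⟩ := hr
              rw [aeval_X]
              refine ⟨hIH _ _ (hxH _ _), ?_⟩
              by_cases hlk : l = k
              · subst hlk
                rw [pderiv_X_self, map_one, hDd _ (hxH _ _), h1, map_one]
              · rw [pderiv_X_of_ne hlk, map_zero]
                rcases lt_or_eq_of_le (show l.1 ≤ k.1 from hl) with h | h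
                · exact hDe (l.1 + 1) (by omega) _ (hxH _ _)
                · obtain ⟨l1, l2⟩ := l
                  obtain ⟨k1, k2⟩ := k
                  dsimp only at h
                  subst h
                  rw [hDd _ (hxH _ _), h2 _ _ _ (fun h => hlk (by dsimp only at h; rw [h])), map_zero]
            | algebraMap r =>
              have h4 : aeval y (algebraMap ℚ (MvPolynomial (Σ d, ι d) ℚ) r) ∈ H 0 :=
                (h0 _).2 ⟨r, AlgHom.commutes _ _⟩
              refine ⟨hIH _ _ h4, ?_⟩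
              rw [hDe 0 (by omega) _ h4, algebraMap_eq, pderiv_C, map_zero]
            | add r s _ _ ihr ihs =>
              rw [map_add, map_add, map_add, hDa, ihr.2, ihs.2]
              exact ⟨hIa _ _ ihr.1 ihs.1, rfl⟩
            | mul r s _ _ ihr ihs =>
              rw [map_mul, hDm _ _ ihr.1 ihs.1, ihr.2, ihs.2, pderiv_mul, map_add, map_mul, map_mul]
              exact ⟨hIm _ _ ihr.1 ihs.1, rfl⟩
          obtain ⟨h5, h6⟩ := pderiv_ne_zero p k hk
          have h7 := (hall p hmem).2
          rw [hp, hDe 0 (by omega) 0 (Submodule.zero_mem _)] at h7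
          exact absurd (ih _ (hn ▸ h6) _ rfl h7.symm) h5
    exact fun p hp => key _ p rfl hp
  · intro d
    induction d using Nat.strong_induction_on with
    | _ d ih =>
      intro z hz
      cases d with
      | zero =>
        obtain ⟨r, rfl⟩ := (h0 z).1 hz
        exact Subalgebra.algebraMap_mem _ r
      | succ d =>
        have h3 : Submodule.span ℚ (Set.range (x d)) ⊔ J (d + 1) ≤
            (Algebra.adjoin ℚ (Set.range y)).toSubmodule := by
          refine sup_le ?_ ?_
          · rw [Submodule.span_le]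
            rintro _ ⟨i, rfl⟩
            exact Algebra.subset_adjoin ⟨⟨d, i⟩, rfl⟩
          · refine Submodule.span_le.2 ?_
            rintro _ ⟨i, j, hi, hj, hij, a, ha, b, hb, rfl⟩
            exact Subalgebra.mul_mem _ (ih i (by omega) a ha) (ih j (by omega) b hb)
        exact h3 (hsp d hz)

end Pool.Agent.H.MP_f0391a_al
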