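import Mathlib

set_option autoImplicit false

namespace Pool.Agent.H.MP_f0391a_al
open MvPowerSeries

abbrev PS := MvPowerSeries ℕ ℚ

noncomputable def ind (s : Finset ℕ) : ℕ →₀ ℕ :=
  Finsupp.onFinset s (fun i => if i ∈ s then 1 else 0) (fun i hi => by
    by_contra h
    exact hi (if_neg h))

theorem ind_apply (s : Finset ℕ) (i : ℕ) : ind s i = if i ∈ s then 1 else 0 := rfl

theorem ind_le (s : Finset ℕ) (i : ℕ) : ind s i ≤ 1 := by
  rw [ind_apply]; split_ifs <;> omega

theorem ind_support (s : Finset ℕ) : (ind s).support = s := by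
  ext i
  rw [Finsupp.mem_support_iff, ind_apply]
  split_ifs with h <;> simp [h]

theorem ind_of_le (m : ℕ →₀ ℕ) (h : ∀ i, m i ≤ 1) : ind m.support = m := by
  ext i
  rw [ind_apply]
  have := h i
  split_ifs with h1
  · have := Finsupp.mem_support_iff.1 h1
    omega
  · exact (Finsupp.notMem_support_iff.1 h1).symm

theorem ind_sum (s : Finset ℕ) : (ind s).sum (fun _ e => e) = s.card := by
  rw [Finsupp.sum, ind_support, Finset.card_eq_sum_ones]
  exact Finset.sum_congr rfl fun i hi => by rw [ind_apply, if_pos hi]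

theorem ind_map (σ : Equiv.Perm ℕ) (s : Finset ℕ) :
    Finsupp.equivMapDomain σ (ind s) = ind (s.image σ) := by
  ext i
  rw [Finsupp.equivMapDomain_apply, ind_apply, ind_apply]
  have : σ.symm i ∈ s ↔ i ∈ s.image σ := by
    rw [Finset.mem_image]
    exact ⟨fun h => ⟨_, h, σ.apply_symm_apply i⟩, fun ⟨j, hj, h⟩ => by rw [← h, σ.symm_apply_apply]; exact hj⟩
  simp only [this]

def KI : Ideal PS where
  carrier := {f | ∀ s : ℕ →₀ ℕ, (∀ i, s i ≤ 1) → coeff s f = 0}
  add_mem' := fun ha hb s hs => by rw [map_add, ha s hs, hb s hs, add_zero]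
  zero_mem' := fun s _ => map_zero _
  smul_mem' := fun g f hf s hs => by
    rw [smul_eq_mul, coeff_mul]
    refine Finset.sum_eq_zero fun p hp => ?_
    rw [hf p.2 (fun i => ?_), mul_zero]
    have h1 := hs i
    rw [← Finset.HasAntidiagonal.mem_antidiagonal.1 hp, Finsupp.add_apply] at h1
    omega

abbrev Q := PS ⧸ KI

theorem coeff_out (s : Finset ℕ) (f : PS) :
    coeff (ind s) (Quotient.out (Ideal.Quotient.mk KI f)) = coeff (ind s) f := by
  have h1 : Quotient.out (Ideal.Quotient.mk KI f) - f ∈ KI := by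
    rw [← Ideal.Quotient.eq]
    exact Quotient.out_eq _
  have h2 := h1 (ind s) (ind_le s)
  rw [map_sub] at h2
  exact sub_eq_zero.1 h2

noncomputable def c (s : Finset ℕ) : Q →ₗ[ℚ] ℚ where
  toFun q := coeff (ind s) (Quotient.out q)
  map_add' a b := by
    obtain ⟨a, rfl⟩ := Ideal.Quotient.mk_surjective a
    obtain ⟨b, rfl⟩ := Ideal.Quotient.mk_surjective b
    rw [← map_add, coeff_out, coeff_out, coeff_out, map_add]
  map_smul' r a := by
    obtain ⟨a, rfl⟩ := Ideal.Quotient.mk_surjective a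
    have : r • Ideal.Quotient.mk KI a = Ideal.Quotient.mk KI (r • a) := rfl
    rw [this, coeff_out, coeff_out, map_smul, RingHom.id_apply]

theorem c_mk (s : Finset ℕ) (f : PS) : c s (Ideal.Quotient.mk KI f) = coeff (ind s) f :=
  coeff_out s f

theorem c_ext {a b : Q} (h : ∀ s, c s a = c s b) : a = b := by
  obtain ⟨a, rfl⟩ := Ideal.Quotient.mk_surjective a
  obtain ⟨b, rfl⟩ := Ideal.Quotient.mk_surjective b
  rw [Ideal.Quotient.eq]
  intro s hs
  have h1 := h s.support
  rw [c_mk, c_mk, ind_of_le s hs] at h1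
  rw [map_sub, h1, sub_self]

open Classical in
noncomputable def lift (g : Finset ℕ → ℚ) : PS := fun m => if ∀ i, m i ≤ 1 then g m.support else 0

open Classical in
theorem coeff_lift (g : Finset ℕ → ℚ) (m : ℕ →₀ ℕ) :
    coeff m (lift g) = if ∀ i, m i ≤ 1 then g m.support else 0 := rfl

noncomputable def mk' (g : Finset ℕ → ℚ) : Q := Ideal.Quotient.mk KI (lift g)

theorem c_mk' (g : Finset ℕ → ℚ) (s : Finset ℕ) : c s (mk' g) = g s := by
  rw [mk', c_mk, coeff_lift, if_pos (ind_le s), ind_support]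

theorem c_mul (s : Finset ℕ) (a b : Q) :
    c s (a * b) = ∑ t ∈ s.powerset, c t a * c (s \ t) b := by
  obtain ⟨a, rfl⟩ := Ideal.Quotient.mk_surjective a
  obtain ⟨b, rfl⟩ := Ideal.Quotient.mk_surjective b
  rw [← map_mul, c_mk, coeff_mul]
  simp only [c_mk]
  have key : ∀ p ∈ Finset.HasAntidiagonal.antidiagonal (ind s),
      p.1.support ⊆ s ∧ ind p.1.support = p.1 ∧ ind (s \ p.1.support) = p.2 := by
    intro p hp
    have h1 : ∀ i, p.1 i + p.2 i = if i ∈ s then 1 else 0 := fun i => by
      rw [← ind_apply, ← Finset.HasAntidiagonal.mem_antidiagonal.1 hp, Finsupp.add_apply]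
    refine ⟨fun i hi => ?_, ind_of_le _ fun i => ?_, ?_⟩
    · have h2 := h1 i
      have h3 := Finsupp.mem_support_iff.1 hi
      by_contra h
      rw [if_neg h] at h2
      omega
    · have h2 := h1 i
      split_ifs at h2 <;> omega
    · ext i
      have h2 := h1 i
      rw [ind_apply]
      simp only [Finset.mem_sdiff, Finsupp.mem_support_iff, not_not]
      by_cases h3 : i ∈ s
      · rw [if_pos h3] at h2
        by_cases h4 : p.1 i = 0
        · rw [if_pos ⟨h3, h4⟩]; omega
        · rw [if_neg fun h => h4 h.2]; omega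
      · rw [if_neg h3] at h2
        rw [if_neg fun h => h3 h.1]; omega
  refine Finset.sum_nbij' (fun p => p.1.support) (fun t => (ind t, ind (s \ t))) ?_ ?_ ?_ ?_ ?_
  · intro p hp
    exact Finset.mem_powerset.2 (key p hp).1
  · intro t ht
    rw [Finset.HasAntidiagonal.mem_antidiagonal]
    ext i
    have h1 : i ∈ t → i ∈ s := fun h => Finset.mem_powerset.1 ht h
    simp only [Finsupp.add_apply, ind_apply, Finset.mem_sdiff]
    by_cases h2 : i ∈ t
    · simp [h2, h1 h2]
    · simp [h2]
  · intro p hp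
    exact Prod.ext (key p hp).2.1 (key p hp).2.2
  · intro t _
    exact ind_support t
  · intro p hp
    rw [(key p hp).2.1, (key p hp).2.2]

theorem c_alg (s : Finset ℕ) (r : ℚ) : c s (algebraMap ℚ Q r) = if s = ∅ then r else 0 := by
  have : algebraMap ℚ Q r = Ideal.Quotient.mk KI (C r) := rfl
  rw [this, c_mk, coeff_C]
  have h : ind s = 0 ↔ s = ∅ := by
    rw [← Finsupp.support_eq_empty, ind_support]
  simp only [h]

instance : Nontrivial Q := ⟨⟨algebraMap ℚ Q 1, 0, fun h => by
  have := c_alg ∅ 1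
  rw [h, map_zero, if_pos rfl] at this
  exact zero_ne_one this⟩⟩

end Pool.Agent.H.MP_f0391a_al
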