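import Mathlib

set_option autoImplicit false

namespace Pool.Agent.H.MP_f0391a_al

def adj (i j : ℕ) : Prop := Nat.testBit j i = true ∨ Nat.testBit i j = true

theorem adj_comm (i j : ℕ) : adj i j ↔ adj j i := or_comm

def Ext (A : ℕ → ℕ → Prop) : Prop :=
  ∀ (U : Finset ℕ) (p : ℕ → Prop), ∃ v, v ∉ U ∧ ∀ u ∈ U, (A v u ↔ p u)

theorem ext_adj : Ext adj := by
  classical
  intro U p
  let N := U.sup id + 1
  have hN : ∀ u ∈ U, u < N := fun u hu => Nat.lt_succ_of_le (Finset.le_sup (f := id) hu)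
  let v := Nat.ofBits (fun i : Fin (N + 1) => decide (i.1 = N ∨ p i.1))
  have h1 : v.testBit N = true := by
    rw [Nat.testBit_ofBits_lt _ _ (Nat.lt_succ_self N)]
    simp
  have h2 : N < v := lt_of_lt_of_le Nat.lt_two_pow_self (Nat.ge_two_pow_of_testBit h1)
  refine ⟨v, fun h => by have := hN v h; omega, fun u hu => ?_⟩
  have h3 := hN u hu
  have h4 : u.testBit v = false :=
    Nat.testBit_lt_two_pow (lt_trans (by omega) (Nat.lt_two_pow_self (n := v)))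
  rw [adj, h4, Nat.testBit_ofBits_lt _ _ (by omega : u < N + 1)]
  simp [h3.ne]

def Good (A B : ℕ → ℕ → Prop) (L : Finset (ℕ × ℕ)) : Prop :=
  ∀ x ∈ L, ∀ y ∈ L, (x.1 = y.1 ↔ x.2 = y.2) ∧ (x.1 ≠ y.1 → (A x.2 y.2 ↔ B x.1 y.1))

theorem forth {A B : ℕ → ℕ → Prop} (hA : Ext A) (sA : ∀ i j, A i j ↔ A j i)
    (sB : ∀ i j, B i j ↔ B j i) (L : Finset (ℕ × ℕ)) (hL : Good A B L) (n : ℕ) :
    ∃ L', L ⊆ L' ∧ Good A B L' ∧ ∃ m, (n, m) ∈ L' := by
  classical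
  by_cases h : ∃ m, (n, m) ∈ L
  · exact ⟨L, subset_rfl, hL, h⟩
  · obtain ⟨v, hv, hvu⟩ := hA (L.image Prod.snd) (fun u => ∃ x ∈ L, x.2 = u ∧ B n x.1)
    have k1 : ∀ y ∈ L, n ≠ y.1 := fun y hy hn => h ⟨y.2, by rw [hn]; exact hy⟩
    have k2 : ∀ y ∈ L, v ≠ y.2 := fun y hy hn => hv (Finset.mem_image.2 ⟨y, hy, hn.symm⟩)
    have k3 : ∀ y ∈ L, (A v y.2 ↔ B n y.1) := fun y hy => by
      rw [hvu _ (Finset.mem_image.2 ⟨y, hy, rfl⟩)]
      refine ⟨fun ⟨x, hx, h1, h2⟩ => ?_, fun h2 => ⟨y, hy, rfl, h2⟩⟩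
      rw [← (hL x hx y hy).1.2 h1]
      exact h2
    refine ⟨insert (n, v) L, Finset.subset_insert _ _, ?_, v, Finset.mem_insert_self _ _⟩
    intro x hx0 y hy0
    rcases Finset.mem_insert.1 hx0 with rfl | hx <;> rcases Finset.mem_insert.1 hy0 with rfl | hy
    · exact ⟨by simp, fun h => absurd rfl h⟩
    · exact ⟨iff_of_false (k1 y hy) (k2 y hy), fun _ => k3 y hy⟩
    · exact ⟨iff_of_false (k1 x hx).symm (k2 x hx).symm, fun _ => by rw [sA, sB]; exact k3 x hx⟩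
    · exact hL x hx y hy

theorem good_swap {A B : ℕ → ℕ → Prop} {L : Finset (ℕ × ℕ)} (hL : Good A B L) :
    Good B A (L.image Prod.swap) := by
  intro x hx y hy
  obtain ⟨x, hx', rfl⟩ := Finset.mem_image.1 hx
  obtain ⟨y, hy', rfl⟩ := Finset.mem_image.1 hy
  have h := hL x hx' y hy'
  exact ⟨h.1.symm, fun h1 => (h.2 fun h2 => h1 (h.1.1 h2)).symm⟩

theorem step {A B : ℕ → ℕ → Prop} (hA : Ext A) (hB : Ext B) (sA : ∀ i j, A i j ↔ A j i)
    (sB : ∀ i j, B i j ↔ B j i) (L : Finset (ℕ × ℕ)) (n : ℕ) (hL : Good A B L) :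
    ∃ L', L ⊆ L' ∧ Good A B L' ∧ (∃ m, (n, m) ∈ L') ∧ ∃ m, (m, n) ∈ L' := by
  obtain ⟨L1, h1, g1, m1, hm1⟩ := forth hA sA sB L hL n
  obtain ⟨L2, h2, g2, m2, hm2⟩ := forth hB sB sA _ (good_swap g1) n
  have k : L1 ⊆ L2.image Prod.swap := fun x hx =>
    Finset.mem_image.2 ⟨x.swap, h2 (Finset.mem_image_of_mem _ hx), rfl⟩
  exact ⟨_, h1.trans k, good_swap g2, ⟨m1, k hm1⟩, m2, Finset.mem_image.2 ⟨_, hm2, rfl⟩⟩

theorem bnf {A B : ℕ → ℕ → Prop} (hA : Ext A) (hB : Ext B) (sA : ∀ i j, A i j ↔ A j i)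
    (sB : ∀ i j, B i j ↔ B j i) (L : Finset (ℕ × ℕ)) (hL : Good A B L) :
    ∃ σ : Equiv.Perm ℕ, (∀ x ∈ L, σ x.1 = x.2) ∧ ∀ i j, i ≠ j → (A (σ i) (σ j) ↔ B i j) := by
  choose! F hF1 hF2 hF3 hF4 using step hA hB sA sB
  let sq : ℕ → Finset (ℕ × ℕ) := fun n => Nat.rec L (fun k M => F M k) n
  have hs : ∀ n, sq (n + 1) = F (sq n) n := fun _ => rfl
  have hg : ∀ n, Good A B (sq n) := by
    intro n
    induction n with
    | zero => exact hL
    | succ n ih => exact hF2 _ _ ih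
  have hm : Monotone sq := monotone_nat_of_le_succ fun n => hF1 _ _ (hg n)
  choose f hf using fun n => hF3 (sq n) n (hg n)
  have two : ∀ a b, ∀ x ∈ sq a, ∀ y ∈ sq b,
      (x.1 = y.1 ↔ x.2 = y.2) ∧ (x.1 ≠ y.1 → (A x.2 y.2 ↔ B x.1 y.1)) := fun a b x hx y hy =>
    hg (max a b) x (hm (le_max_left a b) hx) y (hm (le_max_right a b) hy)
  have key : ∀ k, ∀ x ∈ sq k, f x.1 = x.2 := fun k x hx =>
    (two (x.1 + 1) k _ (hf x.1) x hx).1.1 rfl
  have hb : Function.Bijective f := by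
    refine ⟨fun a b hab => (two (a + 1) (b + 1) _ (hf a) _ (hf b)).1.2 hab, fun n => ?_⟩
    obtain ⟨m, hm⟩ := hF4 (sq n) n (hg n)
    exact ⟨m, key (n + 1) _ hm⟩
  exact ⟨Equiv.ofBijective f hb, fun x hx => key 0 x hx,
    fun i j hij => (two (i + 1) (j + 1) _ (hf i) _ (hf j)).2 hij⟩

def IsG (σ : Equiv.Perm ℕ) : Prop :=
  ∃ S : Set ℕ, ∀ i j : ℕ, i ≠ j → (adj (σ i) (σ j) ↔ (adj i j ↔ (i ∈ S ↔ j ∈ S)))

theorem hom {α : Type} (u : Finset α) (e e' : α → ℕ) (W : α → Prop) (he : Set.InjOn e u)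
    (he' : Set.InjOn e' u)
    (h : ∀ i ∈ u, ∀ j ∈ u, i ≠ j → (adj (e i) (e j) ↔ (adj (e' i) (e' j) ↔ (W i ↔ W j)))) :
    ∃ σ, IsG σ ∧ ∀ i ∈ u, σ (e' i) = e i := by
  classical
  let S : Finset ℕ := (u.filter W).image e'
  have hS : ∀ i ∈ u, (e' i ∈ S ↔ W i) := fun i hi => by
    simp only [S, Finset.mem_image, Finset.mem_filter]
    exact ⟨fun ⟨j, hj, h1⟩ => he' hj.1 hi h1 ▸ hj.2, fun h1 => ⟨i, ⟨hi, h1⟩, rfl⟩⟩
  have hB : Ext fun i j => (adj i j ↔ (i ∈ S ↔ j ∈ S)) := by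
    intro U p
    obtain ⟨v, hv, hvu⟩ := ext_adj (U ∪ S) (fun x => (p x ↔ x ∉ S))
    refine ⟨v, fun h => hv (Finset.mem_union_left _ h), fun x hx => ?_⟩
    have h1 : v ∉ S := fun h => hv (Finset.mem_union_right _ h)
    have h2 := hvu x (Finset.mem_union_left _ hx)
    show (adj v x ↔ (v ∈ S ↔ x ∈ S)) ↔ p x
    have h3 : adj v x ↔ (p x ↔ x ∉ S) := h2
    rw [h3]
    by_cases h4 : x ∈ S <;> by_cases h5 : p x <;> simp [h1, h4, h5]
  obtain ⟨σ, h1, h2⟩ := bnf ext_adj hB adj_comm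
    (fun i j => by rw [adj_comm i j, Iff.comm (a := i ∈ S)])
    (u.image fun i => (e' i, e i)) (by
      intro x hx y hy
      obtain ⟨i, hi, rfl⟩ := Finset.mem_image.1 hx
      obtain ⟨j, hj, rfl⟩ := Finset.mem_image.1 hy
      refine ⟨⟨fun h1 => by rw [he' hi hj h1], fun h1 => by rw [he hi hj h1]⟩, fun h1 => ?_⟩
      have hij : i ≠ j := fun h2 => h1 (by rw [h2])
      show adj (e i) (e j) ↔ (adj (e' i) (e' j) ↔ (e' i ∈ S ↔ e' j ∈ S))
      rw [hS i hi, hS j hj]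
      exact h i hi j hj hij)
  exact ⟨σ, ⟨S, h2⟩, fun i hi => h1 (e' i, e i) (Finset.mem_image_of_mem _ hi)⟩

theorem exE {α : Type} (Γ : α → α → Prop) (sΓ : ∀ i j, Γ i j ↔ Γ j i) (u : Finset α) :
    ∃ e : α → ℕ, Set.InjOn e u ∧ ∀ i ∈ u, ∀ j ∈ u, i ≠ j → (adj (e i) (e j) ↔ Γ i j) := by
  classical
  induction u using Finset.induction_on with
  | empty => exact ⟨fun _ => 0, by simp, by simp⟩
  | insert a u ha ih =>
    obtain ⟨e, he, hΓ⟩ := ih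
    obtain ⟨v, hv, hvu⟩ := ext_adj (u.image e) (fun x => ∃ i ∈ u, e i = x ∧ Γ a i)
    have k0 : ∀ i ∈ u, Function.update e a v i = e i := fun i hi =>
      Function.update_of_ne (fun h : i = a => ha (h ▸ hi)) _ _
    have k1 : ∀ i ∈ u, v ≠ e i := fun i hi h => hv (Finset.mem_image.2 ⟨i, hi, h.symm⟩)
    have k2 : ∀ i ∈ u, (adj v (e i) ↔ Γ a i) := fun i hi => by
      rw [hvu _ (Finset.mem_image_of_mem _ hi)]
      exact ⟨fun ⟨j, hj, h1, h2⟩ => he hj hi h1 ▸ h2, fun h => ⟨i, hi, rfl, h⟩⟩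
    refine ⟨Function.update e a v, ?_, ?_⟩
    · intro i hi0 j hj0 hij
      rcases Finset.mem_insert.1 hi0 with rfl | hi <;> rcases Finset.mem_insert.1 hj0 with rfl | hj
      · rfl
      · rw [Function.update_self, k0 j hj] at hij
        exact absurd hij (k1 j hj)
      · rw [Function.update_self, k0 i hi] at hij
        exact absurd hij.symm (k1 i hi)
      · rw [k0 i hi, k0 j hj] at hij
        exact he hi hj hij
    · intro i hi0 j hj0 hij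
      rcases Finset.mem_insert.1 hi0 with rfl | hi <;> rcases Finset.mem_insert.1 hj0 with rfl | hj
      · exact absurd rfl hij
      · rw [Function.update_self, k0 j hj]
        exact k2 j hj
      · rw [Function.update_self, k0 i hi, adj_comm, sΓ]
        exact k2 i hi
      · rw [k0 i hi, k0 j hj]
        exact hΓ i hi j hj hij

end Pool.Agent.H.MP_f0391a_al
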