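import Pool.Agent.H.MP_f0391a_al.B
import Pool.Agent.H.MP_f0391a_al.C

set_option autoImplicit false

namespace Pool.Agent.H.MP_f0391a_al
open Sum

def Inv (q : Q) : Prop := ∀ σ, IsG σ → ∀ s : Finset ℕ, c (s.image σ) q = c s q

def Gm (Z : Finset ℕ) : ℕ ⊕ ℕ → ℕ ⊕ ℕ → Prop
  | inl i, inl j => adj i j
  | inr i, inr j => (adj i j ↔ (i ∈ Z ↔ j ∈ Z))
  | inl _, inr _ => False
  | inr _, inl _ => False

theorem Gm_comm (Z : Finset ℕ) : ∀ i j, Gm Z i j ↔ Gm Z j i
  | inl i, inl j => adj_comm i j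
  | inr i, inr j => by
    show (adj i j ↔ (i ∈ Z ↔ j ∈ Z)) ↔ (adj j i ↔ (j ∈ Z ↔ i ∈ Z))
    rw [adj_comm i j, Iff.comm (a := i ∈ Z)]
  | inl _, inr _ => Iff.rfl
  | inr _, inl _ => Iff.rfl

noncomputable def emb (Z : Finset ℕ) (u : Finset (ℕ ⊕ ℕ)) : ℕ ⊕ ℕ → ℕ :=
  Classical.choose (exE (Gm Z) (Gm_comm Z) u)

theorem emb_inj (Z : Finset ℕ) (u : Finset (ℕ ⊕ ℕ)) : Set.InjOn (emb Z u) u :=
  (Classical.choose_spec (exE (Gm Z) (Gm_comm Z) u)).1

theorem emb_adj (Z : Finset ℕ) (u : Finset (ℕ ⊕ ℕ)) :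
    ∀ i ∈ u, ∀ j ∈ u, i ≠ j → (adj (emb Z u i) (emb Z u j) ↔ Gm Z i j) :=
  (Classical.choose_spec (exE (Gm Z) (Gm_comm Z) u)).2

noncomputable def V (q : Q) (u : Finset (ℕ ⊕ ℕ)) (Z : Finset ℕ) : ℚ := c (u.image (emb Z u)) q

theorem V_eq {q : Q} (hq : Inv q) (u : Finset (ℕ ⊕ ℕ)) (Z : Finset ℕ) (e : ℕ ⊕ ℕ → ℕ)
    (W : ℕ ⊕ ℕ → Prop) (he : Set.InjOn e u)
    (h : ∀ i ∈ u, ∀ j ∈ u, i ≠ j → (adj (e i) (e j) ↔ (Gm Z i j ↔ (W i ↔ W j)))) :
    c (u.image e) q = V q u Z := by
  obtain ⟨σ, hσ, h1⟩ := hom u e (emb Z u) W he (emb_inj Z u) (fun i hi j hj hij => by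
    rw [emb_adj Z u i hi j hj hij]
    exact h i hi j hj hij)
  rw [V, ← hq σ hσ (u.image (emb Z u)), Finset.image_image,
    Finset.image_congr (f := σ ∘ emb Z u) (g := e) fun i hi => h1 i hi]

theorem V_sub {q : Q} (hq : Inv q) {w u : Finset (ℕ ⊕ ℕ)} (hw : w ⊆ u) (Z Z' : Finset ℕ)
    (hZ : ∀ k, inr k ∈ w → (k ∈ Z ↔ k ∈ Z')) : c (w.image (emb Z u)) q = V q w Z' := by
  refine V_eq hq w Z' _ (fun _ => True) ((emb_inj Z u).mono hw) fun i hi j hj hij => ?_
  rw [emb_adj Z u i (hw hi) j (hw hj) hij]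
  simp only [iff_true]
  rcases i with i | i <;> rcases j with j | j
  · exact Iff.rfl
  · exact Iff.rfl
  · exact Iff.rfl
  · show (adj i j ↔ (i ∈ Z ↔ j ∈ Z)) ↔ (adj i j ↔ (i ∈ Z' ↔ j ∈ Z'))
    rw [hZ i hi, hZ j hj]

theorem c_mul_image {α : Type} [DecidableEq α] (u : Finset α) (e : α → ℕ) (he : Set.InjOn e u)
    (a b : Q) :
    c (u.image e) (a * b) = ∑ w ∈ u.powerset, c (w.image e) a * c ((u \ w).image e) b := by
  rw [c_mul, Finset.powerset_image, Finset.sum_image]
  · refine Finset.sum_congr rfl fun w hw => ?_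
    rw [Finset.image_sdiff_of_injOn he (Finset.mem_powerset.1 hw)]
  · intro w hw w' hw' h
    have h1 : w ⊆ u := Finset.mem_powerset.1 hw
    have h2 : w' ⊆ u := Finset.mem_powerset.1 hw'
    have h3 : w.image e = w'.image e := h
    ext i
    constructor
    · intro hi
      obtain ⟨j, hj, h4⟩ := Finset.mem_image.1 (h3 ▸ Finset.mem_image_of_mem e hi)
      exact he (h2 hj) (h1 hi) h4 ▸ hj
    · intro hi
      obtain ⟨j, hj, h4⟩ := Finset.mem_image.1 (h3.symm ▸ Finset.mem_image_of_mem e hi)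
      exact he (h1 hj) (h2 hi) h4 ▸ hj

theorem sum_disj (s t : Finset ℕ) (F : Finset (ℕ ⊕ ℕ) → ℚ) :
    ∑ w ∈ (s.disjSum t).powerset, F w =
      ∑ s' ∈ s.powerset, ∑ t' ∈ t.powerset, F (s'.disjSum t') := by
  rw [← Finset.sum_product']
  refine Finset.sum_nbij' (fun w => (w.toLeft, w.toRight)) (fun p => p.1.disjSum p.2) ?_ ?_ ?_ ?_ ?_
  · intro w hw
    simpa [Finset.subset_disjSum] using hw
  · intro p hp
    simpa [Finset.subset_disjSum] using hp
  · intro w _
    exact Finset.toLeft_disjSum_toRight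
  · intro p _
    simp
  · intro w _
    rw [Finset.toLeft_disjSum_toRight]

theorem V_mul {a b : Q} (ha : Inv a) (hb : Inv b) (s t Z : Finset ℕ) :
    V (a * b) (s.disjSum t) Z = ∑ s' ∈ s.powerset, ∑ t' ∈ t.powerset,
      V a (s'.disjSum t') (Z ∩ t') * V b ((s \ s').disjSum (t \ t')) (Z \ t') := by
  rw [V, c_mul_image _ _ (emb_inj _ _), sum_disj]
  refine Finset.sum_congr rfl fun s' hs' => Finset.sum_congr rfl fun t' ht' => ?_
  have h1 : s.disjSum t \ s'.disjSum t' = (s \ s').disjSum (t \ t') := by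
    ext x
    rcases x with x | x <;> simp
  rw [V_sub ha (Finset.disjSum_mono (Finset.mem_powerset.1 hs') (Finset.mem_powerset.1 ht')) Z (Z ∩ t')
    (fun k hk => by simp at hk; simp [hk]), h1,
    V_sub hb (Finset.disjSum_mono Finset.sdiff_subset Finset.sdiff_subset) Z (Z \ t')
    (fun k hk => by simp at hk; simp [hk])]

theorem split {t t' : Finset ℕ} (h : t' ⊆ t) (f g : Finset ℕ → ℚ) :
    ∑ Z ∈ t.powerset, f (Z ∩ t') * g (Z \ t') =
      (∑ Z ∈ t'.powerset, f Z) * ∑ Z ∈ (t \ t').powerset, g Z := by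
  rw [Finset.sum_mul_sum, ← Finset.sum_product']
  refine Finset.sum_nbij' (fun Z => (Z ∩ t', Z \ t')) (fun p => p.1 ∪ p.2) ?_ ?_ ?_ ?_ ?_
  · intro Z hZ
    simp only [Finset.mem_product, Finset.mem_powerset] at hZ ⊢
    exact ⟨Finset.inter_subset_right, Finset.sdiff_subset_sdiff hZ subset_rfl⟩
  · intro p hp
    simp only [Finset.mem_product, Finset.mem_powerset] at hp ⊢
    exact Finset.union_subset (hp.1.trans h) (hp.2.trans Finset.sdiff_subset)
  · intro Z _
    ext x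
    simp only [Finset.mem_union, Finset.mem_inter, Finset.mem_sdiff]
    tauto
  · intro p hp
    simp only [Finset.mem_product, Finset.mem_powerset] at hp
    have k1 : ∀ x ∈ p.1, x ∈ t' := fun x hx => hp.1 hx
    have k2 : ∀ x ∈ p.2, x ∉ t' := fun x hx => (Finset.mem_sdiff.1 (hp.2 hx)).2
    refine Prod.ext ?_ ?_
    · ext x
      simp only [Finset.mem_union, Finset.mem_inter]
      have := k1 x
      have := k2 x
      tauto
    · ext x
      simp only [Finset.mem_union, Finset.mem_sdiff]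
      have := k1 x
      have := k2 x
      tauto
  · intro Z _
    rfl

noncomputable def E (q : Q) (s t : Finset ℕ) : ℚ :=
  (1 / 2) ^ t.card * ∑ Z ∈ t.powerset, V q (s.disjSum t) Z

theorem E_mul {a b : Q} (ha : Inv a) (hb : Inv b) (s t : Finset ℕ) :
    E (a * b) s t = ∑ s' ∈ s.powerset, ∑ t' ∈ t.powerset, E a s' t' * E b (s \ s') (t \ t') := by
  simp only [E, V_mul ha hb]
  rw [Finset.sum_comm, Finset.mul_sum]
  refine Finset.sum_congr rfl fun s' _ => ?_
  rw [Finset.sum_comm, Finset.mul_sum]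
  refine Finset.sum_congr rfl fun t' ht' => ?_
  have h1 := Finset.mem_powerset.1 ht'
  rw [split h1 (V a (s'.disjSum t')) (V b ((s \ s').disjSum (t \ t'))),
    ← Finset.card_sdiff_add_card_eq_card h1, pow_add]
  ring

theorem E_add (a b : Q) (s t : Finset ℕ) : E (a + b) s t = E a s t + E b s t := by
  simp only [E, V, map_add, Finset.sum_add_distrib, mul_add]

theorem E_left {q : Q} (hq : Inv q) (t : Finset ℕ) : E q ∅ t = c t q := by
  have h : ∀ Z, V q ((∅ : Finset ℕ).disjSum t) Z = c t q := by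
    intro Z
    rw [← V_eq hq _ Z (Sum.elim id id) (fun x => Sum.elim id id x ∈ Z)]
    · congr 2
      ext x
      simp
    · rintro (i | i) hi (j | j) hj hij
      · simp at hi
      · simp at hi
      · simp at hj
      · exact congrArg inr hij
    · rintro (i | i) hi (j | j) hj hij
      · simp at hi
      · simp at hi
      · simp at hj
      · show adj i j ↔ ((adj i j ↔ (i ∈ Z ↔ j ∈ Z)) ↔ (i ∈ Z ↔ j ∈ Z))
        by_cases h1 : adj i j <;> by_cases h2 : (i ∈ Z ↔ j ∈ Z) <;> simp [h1, h2]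
  simp only [E, h, Finset.sum_const, Finset.card_powerset, nsmul_eq_mul]
  rw [← mul_assoc, Nat.cast_pow, ← mul_pow]
  norm_num

theorem E_right {q : Q} (hq : Inv q) (s : Finset ℕ) : E q s ∅ = c s q := by
  simp only [E, Finset.card_empty, pow_zero, one_mul, Finset.powerset_empty, Finset.sum_singleton]
  rw [← V_eq hq _ ∅ (Sum.elim id id) (fun _ => True)]
  · congr 2
    ext x
    simp
  · rintro (i | i) hi (j | j) hj hij
    · exact congrArg inl hij
    · simp at hj
    · simp at hi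
    · simp at hi
  · rintro (i | i) hi (j | j) hj hij
    · simp only [iff_true]
      exact Iff.rfl
    · simp at hj
    · simp at hi
    · simp at hi

theorem E_inv {q : Q} (hq : Inv q) (s t : Finset ℕ) (σ : Equiv.Perm ℕ) (hσ : IsG σ) :
    E q s (t.image σ) = E q s t := by
  classical
  obtain ⟨S, hS⟩ := hσ
  rw [E, E, Finset.card_image_of_injective _ σ.injective]
  congr 1
  refine Finset.sum_nbij' (fun Z => t.filter fun k => (k ∈ S ↔ σ k ∈ Z))
    (fun Z => (t.filter fun k => (k ∈ S ↔ k ∈ Z)).image σ) ?_ ?_ ?_ ?_ ?_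
  · intro Z _
    exact Finset.mem_powerset.2 (Finset.filter_subset _ _)
  · intro Z _
    exact Finset.mem_powerset.2 (Finset.image_subset_image (Finset.filter_subset _ _))
  · intro Z hZ
    have h1 := Finset.mem_powerset.1 hZ
    ext x
    obtain ⟨x, rfl⟩ := σ.surjective x
    have h2 : σ x ∈ Z → x ∈ t := fun h => σ.injective.mem_finset_image.1 (h1 h)
    rw [σ.injective.mem_finset_image]
    simp only [Finset.mem_filter]
    tauto
  · intro Z hZ
    have h1 := Finset.mem_powerset.1 hZ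
    ext x
    have h2 : x ∈ Z → x ∈ t := fun h => h1 h
    simp only [Finset.mem_filter, σ.injective.mem_finset_image]
    tauto
  · intro Z _
    have hinj : Function.Injective (Sum.map (id : ℕ → ℕ) σ) :=
      Function.injective_id.sumMap σ.injective
    have h1 : (s.disjSum t).image (Sum.map id σ) = s.disjSum (t.image σ) := by
      ext x
      rcases x with x | x <;> simp
    have h2 : ∀ i ∈ s.disjSum t, Sum.map id σ i ∈ s.disjSum (t.image σ) := fun i hi =>
      h1 ▸ Finset.mem_image_of_mem _ hi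
    rw [← V_eq hq (s.disjSum t) _ (emb Z (s.disjSum (t.image σ)) ∘ Sum.map id σ) (fun _ => True),
      V, ← Finset.image_image, h1]
    · intro i hi j hj hij
      exact hinj (emb_inj _ _ (h2 i hi) (h2 j hj) hij)
    · intro i hi j hj hij
      simp only [Function.comp_apply, iff_true]
      rw [emb_adj _ _ _ (h2 i hi) _ (h2 j hj) (hinj.ne hij)]
      rcases i with i | i <;> rcases j with j | j
      · exact Iff.rfl
      · exact Iff.rfl
      · exact Iff.rfl
      · show (adj (σ i) (σ j) ↔ (σ i ∈ Z ↔ σ j ∈ Z)) ↔ (adj i j ↔ (i ∈ _ ↔ j ∈ _))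
        rw [hS i j fun h => hij (congrArg inr h)]
        simp only [Finset.mem_filter, Finset.inr_mem_disjSum.1 hi, Finset.inr_mem_disjSum.1 hj,
          true_and]
        by_cases h3 : adj i j <;> by_cases h4 : i ∈ S <;> by_cases h5 : j ∈ S <;>
          by_cases h6 : σ i ∈ Z <;> by_cases h7 : σ j ∈ Z <;> simp [h3, h4, h5, h6, h7]

theorem E_deg {q : Q} {d : ℕ} (hq : ∀ s : Finset ℕ, s.card ≠ d → c s q = 0) (s t : Finset ℕ)
    (h : s.card + t.card ≠ d) : E q s t = 0 := by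
  rw [E, Finset.sum_eq_zero, mul_zero]
  intro Z _
  apply hq
  rwa [Finset.card_image_of_injOn (emb_inj _ _), Finset.card_disjSum]

end Pool.Agent.H.MP_f0391a_al
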