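import Pool.Agent.H.MP_f0391a_al.A
import Pool.Agent.H.MP_f0391a_al.D

set_option autoImplicit false

namespace Pool.Agent.H.MP_f0391a_al

def H (d : ℕ) : Submodule ℚ Q where
  carrier := {q | Inv q ∧ ∀ s : Finset ℕ, s.card ≠ d → c s q = 0}
  add_mem' := fun ha hb => ⟨fun σ hσ s => by rw [map_add, map_add, ha.1 σ hσ, hb.1 σ hσ],
    fun s hs => by rw [map_add, ha.2 s hs, hb.2 s hs, add_zero]⟩
  zero_mem' := ⟨fun σ _ s => by rw [map_zero, map_zero], fun s _ => map_zero _⟩
  smul_mem' := fun r a ha => ⟨fun σ hσ s => by rw [map_smul, map_smul, ha.1 σ hσ],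
    fun s hs => by rw [map_smul, ha.2 s hs, smul_zero]⟩

theorem Inv.add {a b : Q} (ha : Inv a) (hb : Inv b) : Inv (a + b) :=
  fun σ hσ s => by rw [map_add, map_add, ha σ hσ, hb σ hσ]

theorem Inv.mul {a b : Q} (ha : Inv a) (hb : Inv b) : Inv (a * b) := by
  intro σ hσ s
  rw [c_mul_image s σ σ.injective.injOn, c_mul]
  exact Finset.sum_congr rfl fun w _ => by rw [ha σ hσ, hb σ hσ]

theorem mem_H0 (y : Q) : y ∈ H 0 ↔ ∃ r : ℚ, y = algebraMap ℚ Q r := by
  constructor
  · intro hy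
    refine ⟨c ∅ y, c_ext fun s => ?_⟩
    rw [c_alg]
    split_ifs with h
    · rw [h]
    · exact hy.2 s fun h1 => h (Finset.card_eq_zero.1 h1)
  · rintro ⟨r, rfl⟩
    refine ⟨fun σ _ s => ?_, fun s hs => ?_⟩
    · simp only [c_alg, Finset.image_eq_empty]
    · rw [c_alg, if_neg fun h => hs (Finset.card_eq_zero.2 h)]

noncomputable def pr (d : ℕ) (q : Q) : Q := mk' fun s => if s.card = d then c s q else 0

theorem c_pr (d : ℕ) (q : Q) (s : Finset ℕ) : c s (pr d q) = if s.card = d then c s q else 0 :=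
  c_mk' _ _

theorem pr_mem (d : ℕ) {q : Q} (hq : Inv q) : pr d q ∈ H d :=
  ⟨fun σ hσ s => by rw [c_pr, c_pr, Finset.card_image_of_injective _ σ.injective, hq σ hσ],
    fun s hs => by rw [c_pr, if_neg hs]⟩

theorem pr_add (d : ℕ) (a b : Q) : pr d (a + b) = pr d a + pr d b :=
  c_ext fun s => by
    rw [map_add, c_pr, c_pr, c_pr, map_add]
    split_ifs <;> simp

theorem pr_sum (d : ℕ) (u : Finset (Finset ℕ)) (f : Finset ℕ → Q) :
    pr d (∑ i ∈ u, f i) = ∑ i ∈ u, pr d (f i) :=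
  c_ext fun s => by
    rw [map_sum, c_pr, map_sum]
    simp only [c_pr]
    split_ifs <;> simp

theorem pr_zero (q : Q) : pr 0 q = algebraMap ℚ Q (c ∅ q) :=
  c_ext fun s => by
    rw [c_pr, c_alg]
    by_cases h : s = ∅
    · simp [h]
    · rw [if_neg h, if_neg fun h1 => h (Finset.card_eq_zero.1 h1)]

theorem pr_mul (d : ℕ) (a b : Q) :
    pr d (a * b) = ∑ i ∈ Finset.range (d + 1), pr i a * pr (d - i) b :=
  c_ext fun s => by
    rw [map_sum, c_pr, c_mul]
    simp only [c_mul, c_pr]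
    rw [Finset.sum_comm]
    have key : ∀ t ∈ s.powerset, ∑ i ∈ Finset.range (d + 1),
        (if t.card = i then c t a else 0) * (if (s \ t).card = d - i then c (s \ t) b else 0) =
        if s.card = d then c t a * c (s \ t) b else 0 := by
      intro t ht
      have h1 := Finset.card_sdiff_add_card_eq_card (Finset.mem_powerset.1 ht)
      by_cases h2 : t.card ≤ d
      · rw [Finset.sum_eq_single t.card]
        · rw [if_pos rfl]
          by_cases h3 : s.card = d
          · rw [if_pos h3, if_pos (by omega)]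
          · rw [if_neg h3, if_neg (by omega), mul_zero]
        · intro i _ hi
          rw [if_neg hi.symm, zero_mul]
        · intro h
          exact absurd (Finset.mem_range.2 (by omega)) h
      · rw [if_neg (by omega)]
        refine Finset.sum_eq_zero fun i hi => ?_
        have := Finset.mem_range.1 hi
        rw [if_neg (by omega), zero_mul]
    rw [Finset.sum_congr rfl key]
    split_ifs <;> simp

theorem phi_mul {d : ℕ} (hd : 1 ≤ d) (φ : Q →ₗ[ℚ] ℚ)
    (hφ : ∀ i j, 1 ≤ i → 1 ≤ j → i + j = d → ∀ a ∈ H i, ∀ b ∈ H j, φ (a * b) = 0)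
    {a b : Q} (ha : Inv a) (hb : Inv b) :
    φ (pr d (a * b)) = φ (pr d a) * c ∅ b + c ∅ a * φ (pr d b) := by
  obtain ⟨d, rfl⟩ : ∃ e, d = e + 1 := ⟨d - 1, by omega⟩
  rw [pr_mul, Finset.sum_range_succ, Finset.sum_range_succ', map_add, map_add, map_sum,
    Finset.sum_eq_zero, Nat.sub_self, Nat.sub_zero, pr_zero, pr_zero, mul_comm (pr (d + 1) a),
    ← Algebra.smul_def, ← Algebra.smul_def, map_smul, map_smul, smul_eq_mul, smul_eq_mul]
  · ring
  · intro i hi
    have := Finset.mem_range.1 hi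
    exact hφ (i + 1) (d + 1 - (i + 1)) (by omega) (by omega) (by omega) _ (pr_mem _ ha) _
      (pr_mem _ hb)

noncomputable def P (s : Finset ℕ) (q : Q) : Q := mk' (E q s)

theorem P_inv (s : Finset ℕ) {q : Q} (hq : Inv q) : Inv (P s q) :=
  fun σ hσ t => by rw [P, c_mk', c_mk', E_inv hq s t σ hσ]

theorem P_mul {a b : Q} (ha : Inv a) (hb : Inv b) (s : Finset ℕ) :
    P s (a * b) = ∑ t ∈ s.powerset, P t a * P (s \ t) b :=
  c_ext fun t => by
    rw [map_sum, P, c_mk', E_mul ha hb]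
    simp only [c_mul, P, c_mk']

theorem P_add (a b : Q) (s : Finset ℕ) : P s (a + b) = P s a + P s b :=
  c_ext fun t => by rw [map_add, P, P, P, c_mk', c_mk', c_mk', E_add]

theorem main : ∃ (ι : Type) (x : ι → Q), (∀ i, ∃ d, x i ∈ H d) ∧ AlgebraicIndependent ℚ x ∧
    ∀ d, ∀ y ∈ H d, y ∈ Algebra.adjoin ℚ (Set.range x) := by
  refine leray H Inv (fun d y hy => hy.1) (fun a b => Inv.add) (fun a b => Inv.mul) mem_H0 ?_
  intro d hd φ hφ
  have hz : ∀ e ≤ d, ∀ y ∈ H e, ∀ s : Finset ℕ, (s ≠ ∅ ∨ e ≠ d) → pr d (P s y) = 0 := by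
    intro e he y hy s hs
    refine c_ext fun t => ?_
    rw [c_pr, map_zero, P, c_mk']
    split_ifs with h
    · refine E_deg hy.2 s t ?_
      rcases hs with hs | hs
      · have := Finset.card_pos.2 (Finset.nonempty_iff_ne_empty.2 hs)
        omega
      · omega
    · rfl
  refine ⟨fun q => mk' fun s => φ (pr d (P s q)), fun a b => c_ext fun s => ?_,
    fun a b ha hb => c_ext fun s => ?_, fun y hy => c_ext fun s => ?_,
    fun e he y hy => c_ext fun s => ?_⟩
  · rw [map_add, c_mk', c_mk', c_mk', P_add, pr_add, map_add]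
  · rw [map_add, c_mk', c_mul, c_mul, P_mul ha hb, pr_sum, map_sum, ← Finset.sum_add_distrib]
    refine Finset.sum_congr rfl fun t _ => ?_
    rw [phi_mul hd φ hφ (P_inv _ ha) (P_inv _ hb), c_mk', c_mk', P, P, c_mk', c_mk',
      E_right ha, E_right hb]
  · rw [c_mk', c_alg]
    split_ifs with h
    · subst h
      congr 1
      refine c_ext fun t => ?_
      rw [c_pr, P, c_mk', E_left hy.1]
      split_ifs with h
      · rfl
      · exact (hy.2 t h).symm
    · rw [hz d le_rfl y hy s (Or.inl h), map_zero]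
  · rw [c_mk', hz e he.le y hy s (Or.inr he.ne), map_zero, map_zero]

def TT : Set PS := {f : MvPowerSeries ℕ ℚ |
      (∀ σ : Equiv.Perm ℕ, IsG σ → ∀ s : ℕ →₀ ℕ,
          MvPowerSeries.coeff (Finsupp.equivMapDomain σ s) f = MvPowerSeries.coeff s f) ∧
      ∃ N : ℕ, ∀ s : ℕ →₀ ℕ, N ≤ s.sum (fun _ e => e) → MvPowerSeries.coeff s f = 0}

theorem lift_H {d : ℕ} {q : Q} (hq : q ∈ H d) : ∃ f ∈ TT, Ideal.Quotient.mk KI f = q ∧
    ∀ s : ℕ →₀ ℕ, MvPowerSeries.coeff s f ≠ 0 → s.sum (fun _ e => e) = d := by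
  have key : ∀ s : ℕ →₀ ℕ, MvPowerSeries.coeff s (lift fun t => c t q) ≠ 0 →
      s.sum (fun _ e => e) = d := by
    intro s hs
    rw [coeff_lift] at hs
    split_ifs at hs with h
    · rw [← ind_of_le s h, ind_sum]
      by_contra h1
      exact hs (hq.2 _ h1)
    · exact absurd rfl hs
  refine ⟨lift fun t => c t q, ⟨fun σ hσ s => ?_, d + 1, fun s hs => ?_⟩,
    c_ext fun s => c_mk' _ s, key⟩
  · rw [coeff_lift, coeff_lift]
    by_cases h : ∀ i, s i ≤ 1
    · have h' : ∀ i, Finsupp.equivMapDomain σ s i ≤ 1 := fun i => h _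
      rw [if_pos h, if_pos h', ← ind_of_le s h, ind_map, ind_support, ind_support,
        hq.1 σ hσ]
    · rw [if_neg h, if_neg fun h1 => h fun i => by simpa using h1 (σ i)]
  · by_contra h
    have := key s h
    omega

theorem mk_T {f : PS} (hf : f ∈ TT) (S : Subalgebra ℚ Q) (hS : ∀ d, ∀ y ∈ H d, y ∈ S) :
    Ideal.Quotient.mk KI f ∈ S := by
  obtain ⟨h1, N, h2⟩ := hf
  have hi : Inv (Ideal.Quotient.mk KI f) := fun σ hσ s => by
    rw [c_mk, c_mk, ← ind_map, h1 σ hσ]
  have : Ideal.Quotient.mk KI f = ∑ d ∈ Finset.range N, pr d (Ideal.Quotient.mk KI f) := by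
    refine c_ext fun s => ?_
    rw [map_sum]
    simp only [c_pr]
    rw [Finset.sum_ite_eq]
    split_ifs with h
    · rfl
    · rw [c_mk]
      apply h2
      rw [ind_sum]
      simpa using h
  rw [this]
  exact Subalgebra.sum_mem _ fun d _ => hS d _ (pr_mem d hi)

end Pool.Agent.H.MP_f0391a_al
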